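import Pool.Agent.X156.PR.Fin

/-!
# The parity conjecture for semistable elliptic curves over Galois extensions of even degree

For an elliptic curve `W` over a number field `F` let `defect W = (-1)^rk(W(F)) w(W/F)`, so that the
parity conjecture for `W/F` says `defect W = 1`. For a semistable `W/F` the root number is
`w(W/F) = (-1)^(m + u)`, `m` the number of primes of split multiplicative reduction, `u` the number
of infinite places of `F`.

Let `W` be a semistable elliptic curve over a number field `k`, `L/k` a finite Galois extension with
group `G`.

1. There is a finite-dimensional rational representation `V` of `G` such that the defect of `W` over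
   the fixed field `L^H` is `(-1)^(dim V^H)`, for all subgroups `H`.
2. `W` has the same defect over `L` and over `L^σ`, if `σ` is an element of order two which is a
   product of squares.
3. If `G` has a normal subgroup `N` of odd order such that `G/N` is a `2`-group, `G ≠ N` (for
   instance: `G` nilpotent of even order, or `G` of even order with a cyclic Sylow `2`-subgroup), then
   the defect over `L` is the product of the defects over the quadratic extensions of `k` in `L`.
4. Every `L/k` of even degree: the defect over `L` is the product of the defects over the quadratic
   extensions in `L` of the fixed field of a Sylow `2`-subgroup (a field of odd degree over `k`).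

In particular the parity conjecture for `W` over all finite Galois extensions of `k` of even degree
follows from the parity conjecture over the quadratic extensions of the extensions of `k` of odd
degree, and over nilpotent extensions of even degree from the one over the quadratic extensions of
`k`.
-/

set_option autoImplicit false

namespace Pool.Agent.Results.MP_02f36d_nt.GaloisExtensionsOfEvenDegree

open WeierstrassCurve NumberField Module Pool.Agent.X156.PR

theorem result :
    ∀ (k L : Type) [Field k] [NumberField k] [Field L] [NumberField L] [Algebra k L] [IsGalois k L]
      (W : WeierstrassCurve k), W.Δ ≠ 0 → Semistable W →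
    -- (1)
    (∃ (V : Type) (_ : AddCommGroup V) (_ : Module ℚ V) (_ : FiniteDimensional ℚ V)
      (ρ : (L ≃ₐ[k] L) →* (V →ₗ[ℚ] V)), ∀ H : Subgroup (L ≃ₐ[k] L),
      defect (W.baseChange (IntermediateField.fixedField H)) = (-1) ^ (finrank ℚ (fixS ρ H)) ∧
      defect (W.baseChange L) = (-1) ^ (finrank ℚ V)) ∧
    -- (2)
    (∀ σ : L ≃ₐ[k] L, σ * σ = 1 →
      σ ∈ Subgroup.closure (Set.range fun g : L ≃ₐ[k] L => g ^ 2) →
      defect (W.baseChange L) =
        defect (W.baseChange (IntermediateField.fixedField (Subgroup.zpowers σ)))) ∧
    -- (3)
    (∀ N : Subgroup (L ≃ₐ[k] L), N.Normal → Odd (Nat.card N) → ∀ n : ℕ, N.index = 2 ^ (n + 1) →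
      defect (W.baseChange L) = ∏ F ∈ quads k L, defect (W.baseChange F)) ∧
    -- (4)
    (Even (finrank k L) → ∀ P : Sylow 2 (L ≃ₐ[k] L),
      defect (W.baseChange L) =
        ∏ F ∈ quads (IntermediateField.fixedField (P : Subgroup (L ≃ₐ[k] L))) L,
          defect ((W.baseChange
            (IntermediateField.fixedField (P : Subgroup (L ≃ₐ[k] L)))).baseChange F)) := by
  intro k L _ _ _ _ _ _ W hW hs
  exact ⟨governing W hW hs, fun σ h1 h2 => invol_defect W hW hs σ h1 h2,
    fun N h1 h2 n h3 => quadratic W hW hs N h1 h2 h3, fun h P => sylow W hW hs h P⟩

end Pool.Agent.Results.MP_02f36d_nt.GaloisExtensionsOfEvenDegree
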