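import Mathlib
import Pool.Agent.Y388.QK.Deg
import Pool.Agent.W672.FK.Lowf
import Pool.Agent.W307.RT.Tors
import Pool.Agent.X293.GZ.Main
import Pool.Agent.X293.CO.Cond

/-!
# The parity conjecture over Galois fields for all the twists by subset products

All elliptic curves `E` over `ℚ` with full rational 2-torsion, ordered by the naive height, by the
minimal discriminant or by the conductor. For every `m` and `N` there is a finite list of fields
`M = ℚ(√(q_1 q'_1), ..., √(q_m q'_m))` of degree `2 ^ m`, all the primes `q_i`, `q'_i` larger than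
`N`, and `δ > 0` such that for all large `Z` for some field `M` of the list at least a proportion `δ`
of the curves of size at most `Z` satisfies, for all the `2 ^ m` quadratic twists `E'` of `E` by the
products of some of the `q_i q'_i`: `rk E'(M) = 0`, the root number `w(E'/L)` is `1` for EVERY finite
Galois extension `L/ℚ` containing two different quadratic subfields of `M` (in particular if `L`
contains `M` and `m ≥ 2`), and the parity conjecture holds for `E'` over every such `L` whose Galois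
group has a normal 2-complement (for instance is nilpotent) and whose quadratic subfields embed
in `M`.
-/

set_option autoImplicit false

namespace Pool.Agent.Results.MP_02f36d_nt.GaloisFieldsOverMultiquadratic

open Finset Filter Topology NumberField

/-- the curve `y² = x³ + A x + B` over `ℚ` -/
def E (A B : ℤ) : WeierstrassCurve ℚ := ⟨0, 0, 0, (A : ℚ), (B : ℚ)⟩

/-- the absolute value of the minimal discriminant of an elliptic curve `W` over `ℚ`: the smallest
absolute value of the discriminant of a Weierstrass equation `V` with integer coefficients which is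
isomorphic to `W` over `ℚ` -/
noncomputable def minDisc (W : WeierstrassCurve ℚ) : ℕ :=
  sInf {n : ℕ | ∃ (V : WeierstrassCurve ℤ) (C : WeierstrassCurve.VariableChange ℚ),
    C • W = V.map (Int.castRingHom ℚ) ∧ n = V.Δ.natAbs}

/-- the naive height of `y² = x³ + A x + B` is at most `Z` -/
def HeightLe (c : ℤ × ℤ) (Z : ℕ) : Prop := 4 * |c.1| ^ 3 ≤ Z ∧ 27 * c.2 ^ 2 ≤ Z

/-- the minimal discriminant of `y² = x³ + A x + B` is at most `Z` in absolute value -/
def DiscLe (c : ℤ × ℤ) (Z : ℕ) : Prop := minDisc (E c.1 c.2) ≤ Z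

/-- the prime-to-6 part of the conductor of `y² = x³ + A x + B` (there is no prime `p` with `p⁴ ∣ A`
and `p⁶ ∣ B`): the product over the primes `p ≥ 5` dividing `4 A³ + 27 B²` of `p` (multiplicative
reduction: `p ∤ A`) or `p²` (additive reduction: `p ∣ A`) -/
def Cond6 (c : ℤ × ℤ) : ℕ :=
  ∏ p ∈ (Int.natAbs (4 * c.1 ^ 3 + 27 * c.2 ^ 2)).primeFactors.filter (fun p => 5 ≤ p),
    if (p : ℤ) ∣ c.1 then p ^ 2 else p

/-- the conductor is at most `Z`, where `f c` is the part of the conductor at the primes `2`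
and `3` -/
def CondLe (f : ℤ × ℤ → ℕ) (c : ℤ × ℤ) (Z : ℕ) : Prop := f c * Cond6 c ≤ Z

/-- the three orderings: by the naive height, by the minimal discriminant, by the conductor (`f` may
be any function with values between `1` and `2 ^ 8 * 3 ^ 5`; the part of the conductor at the primes
`2` and `3` is such a function) -/
def IsOrdering (I : ℤ × ℤ → ℕ → Prop) : Prop :=
  I = HeightLe ∨ I = DiscLe ∨
    ∃ f : ℤ × ℤ → ℕ, (∀ c, 1 ≤ f c ∧ f c ≤ 2 ^ 8 * 3 ^ 5) ∧ I = CondLe f

/-- The pairs `(A, B)` of integers such that `4 A³ + 27 B² ≠ 0`, there is no prime `p` with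
`p⁴ ∣ A` and `p⁶ ∣ B`, `Z/2 x Z/2` embeds in the group of the rational points of
`y² = x³ + A x + B`, and the size is at most `Z`. Every elliptic curve over `ℚ` with full rational
2-torsion is isomorphic to `E A B` for exactly one pair with the first three properties. -/
def Fam (I : ℤ × ℤ → ℕ → Prop) (Z : ℕ) : Set (ℤ × ℤ) :=
  {c : ℤ × ℤ | 4 * c.1 ^ 3 + 27 * c.2 ^ 2 ≠ 0 ∧
    (∀ p : ℕ, p.Prime → ¬ ((p : ℤ) ^ 4 ∣ c.1 ∧ (p : ℤ) ^ 6 ∣ c.2)) ∧
    (∃ f : ZMod 2 × ZMod 2 →+ (E c.1 c.2).toAffine.Point, Function.Injective f) ∧ I c Z}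

/-- the proportion of the curves of `S` among the curves of size at most `Z` -/
noncomputable def proportion (I : ℤ × ℤ → ℕ → Prop) (S : Set (ℤ × ℤ)) (Z : ℕ) : ℝ :=
  ((Fam I Z ∩ S).ncard : ℝ) / (Fam I Z).ncard

lemma FamH_eq (H : ℕ) : Fam HeightLe H = (Pool.Agent.W307.RT.Cv 2 H : Set (ℤ × ℤ)) := by
  classical
  ext c
  have h : Pool.Agent.W307.RT.HasT 2 (Pool.Agent.W307.RT.Sh c.1 c.2) ↔
    ∃ f : ZMod 2 × ZMod 2 →+ (E c.1 c.2).toAffine.Point, Function.Injective f :=
    Pool.Agent.W307.RT.tors_iff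
  unfold Fam HeightLe Pool.Agent.W307.RT.Cv
  rw [Set.mem_ofPred_eq, mem_coe, mem_filter, h, mem_product, mem_Icc, mem_Icc]
  constructor
  · rintro ⟨h1, h2, h3, h4, h5⟩
    refine ⟨⟨?_, ?_⟩, h1, h4, h5, h2, h3⟩
    · rw [← abs_le]
      have h0 := abs_nonneg c.1
      rcases eq_or_lt_of_le h0 with h6 | h6
      · rw [← h6]; positivity
      · have : 1 ≤ |c.1| := h6
        nlinarith [mul_nonneg h0 h0, mul_self_nonneg (|c.1| - 1)]
    · rw [← abs_le]
      have h0 := abs_nonneg c.2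
      rw [← sq_abs] at h5
      rcases eq_or_lt_of_le h0 with h6 | h6
      · rw [← h6]; positivity
      · have : 1 ≤ |c.2| := h6
        nlinarith
  · rintro ⟨-, h1, h4, h5, h2, h3⟩
    exact ⟨h1, h2, h3, h4, h5⟩

lemma FamD_eq (D : ℕ) : Fam DiscLe D = (Pool.Agent.TH344.DS.Dv D : Set (ℤ × ℤ)) := by
  classical
  have h0 : Fam DiscLe D = Pool.Agent.W307.RS.DvS 2 D := by
    ext c
    have h : Pool.Agent.W307.RT.HasT 2 (Pool.Agent.W307.RT.Sh c.1 c.2) ↔
        ∃ f : ZMod 2 × ZMod 2 →+ (E c.1 c.2).toAffine.Point, Function.Injective f :=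
      Pool.Agent.W307.RT.tors_iff
    unfold Fam Pool.Agent.W307.RS.DvS
    rw [Set.mem_ofPred_eq, Set.mem_ofPred_eq, h]
    exact Iff.rfl
  rw [h0]
  unfold Pool.Agent.TH344.DS.Dv
  rw [dif_pos (Pool.Agent.TH344.DS.excd.1 D), Set.Finite.coe_toFinset]

/-- The number of these curves tends to infinity (ordering by height). -/
lemma tendstoH : Tendsto (fun Z : ℕ => (Fam HeightLe Z).ncard) atTop atTop := by
  simp only [FamH_eq, Set.ncard_coe_finset]
  exact Pool.Agent.W307.RT.tendsto_of_low Pool.Agent.W672.FK.lowf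

/-- The number of these curves tends to infinity (ordering by the minimal discriminant). -/
lemma tendstoD : Tendsto (fun Z : ℕ => (Fam DiscLe Z).ncard) atTop atTop := by
  have h1 := Pool.Agent.W307.RT.tendsto_of_low Pool.Agent.W672.FK.lowf
  have h2 : Tendsto (fun D : ℕ => (Pool.Agent.W307.RT.Cv 2 (D / 32)).card) atTop atTop :=
    h1.comp (Nat.tendsto_div_const_atTop (by norm_num))
  obtain ⟨hD1, hD2, hD3⟩ := Pool.Agent.TH344.DS.excd
  refine tendsto_atTop_mono (fun D => ?_) h2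
  have h3 : (Pool.Agent.TH344.DS.Dv D : Set (ℤ × ℤ)) = Pool.Agent.W307.RS.DvS 2 D := by
    unfold Pool.Agent.TH344.DS.Dv
    rw [dif_pos (hD1 D), Set.Finite.coe_toFinset]
  rw [FamD_eq, h3, ← Set.ncard_coe_finset]
  exact Set.ncard_le_ncard (Pool.Agent.W307.RS.Cv_sub Pool.Agent.W554.RS.mdl 2 (D / 32) D
    (Nat.mul_div_le D 32)) (hD1 D)

/-- the property without the size -/
def Pr (c : ℤ × ℤ) : Prop := 4 * c.1 ^ 3 + 27 * c.2 ^ 2 ≠ 0 ∧
    (∀ p : ℕ, p.Prime → ¬ ((p : ℤ) ^ 4 ∣ c.1 ∧ (p : ℤ) ^ 6 ∣ c.2)) ∧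
    (∃ g : ZMod 2 × ZMod 2 →+ (E c.1 c.2).toAffine.Point, Function.Injective g)

lemma good : Pool.Agent.Y679.Cr.Good Pr := by
  classical
  refine ⟨fun c hc => ⟨?_, ?_⟩, fun H c hc => ?_, Pool.Agent.W672.FK.lowf⟩
  · exact Pool.Agent.Y679.Cr.isMin_of hc.1 hc.2.1
  · exact Pool.Agent.Y679.Cr.full_of (Pool.Agent.W307.RT.tors_iff.2 hc.2.2)
  · unfold Pool.Agent.W307.RT.Cv at hc
    obtain ⟨-, h1, -, -, h2, h3⟩ := mem_filter.1 hc
    exact ⟨h1, h2, Pool.Agent.W307.RT.tors_iff.1 h3⟩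

lemma cond_eq (c : ℤ × ℤ) : Pool.Agent.Y679.Cr.cs c = Cond6 c := by
  unfold Pool.Agent.Y679.Cr.cs Pool.Agent.H925R.Szpiro.condS Cond6
  rw [Pool.Agent.Y679.Cr.D_neg, Int.natAbs_neg]
  refine prod_congr rfl fun p _ => ?_
  by_cases h : (p : ℤ) ∣ c.1
  · rw [if_pos h, if_pos (Int.dvd_neg.2 h)]
  · rw [if_neg h, if_neg fun h' => h (Int.dvd_neg.1 h')]

lemma bdd {f : ℤ × ℤ → ℕ} (hf : ∀ c, 1 ≤ f c ∧ f c ≤ 2 ^ 8 * 3 ^ 5) : Pool.Agent.Y679.Cr.Bdd f :=
  fun c => ⟨(hf c).1, (hf c).2.trans (by norm_num)⟩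

lemma FamC_eq (f : ℤ × ℤ → ℕ) (Z : ℕ) : Fam (CondLe f) Z = Pool.Agent.Y679.Cr.Gm Pr f Z := by
  ext c
  unfold Fam CondLe Pool.Agent.Y679.Cr.Gm
  rw [Set.mem_ofPred_eq, Set.mem_ofPred_eq, cond_eq]
  exact ⟨fun h => ⟨⟨h.1, h.2.1, h.2.2.1⟩, h.2.2.2⟩, fun h => ⟨h.1.1, h.1.2.1, h.1.2.2, h.2⟩⟩

section fields

variable (K : Type) [Field K] [NumberField K]

/-- the curve `y² = x³ + A x + B` over `K` -/
def EK (A B : ℤ) : WeierstrassCurve K := ⟨0, 0, 0, (A : K), (B : K)⟩

open Classical in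
/-- the Mordell-Weil rank over `K` -/
noncomputable def rankK (c : ℤ × ℤ) : ℕ := Module.finrank ℤ (EK K c.1 c.2).toAffine.Point

variable {K}

/-- `V` is an equation with coefficients in the ring of integers of the curve `W` over `K` -/
def ModelOf (W : WeierstrassCurve K) (V : WeierstrassCurve (𝓞 K)) : Prop :=
  ∃ C : WeierstrassCurve.VariableChange K, C • W = V.map (algebraMap (𝓞 K) K)

/-- `a_P = N(P) + 1 - #V(𝓞 K / P)`, that is `N(P)` minus the number of the affine solutions of the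
Weierstrass equation modulo `P`; for a prime of multiplicative reduction this is `1` (split) or `-1`
(non-split) -/
noncomputable def aP (V : WeierstrassCurve (𝓞 K)) (P : Ideal (𝓞 K)) : ℤ :=
  (Nat.card (𝓞 K ⧸ P) : ℤ) - Nat.card {z : (𝓞 K ⧸ P) × (𝓞 K ⧸ P) //
    (V.map (Ideal.Quotient.mk P)).toAffine.Equation z.1 z.2}

/-- the quadratic twist by `d` of the curve `V` (the curve `y² = x³ + b₂ x² + 8 b₄ x + 16 b₆`) -/
def twist (V : WeierstrassCurve (𝓞 K)) (d : 𝓞 K) : WeierstrassCurve K :=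
  ⟨0, (d : K) * (V.b₂ : K), 0, 8 * (d : K) ^ 2 * (V.b₄ : K), 16 * (d : K) ^ 3 * (V.b₆ : K)⟩

open Classical in
/-- `w` is the local root number of the elliptic curve `W` at the prime `P`, for three types of
reduction at `P`: good reduction (`1`), multiplicative reduction (`-a_P`), and, for `P` prime to `2`,
the quadratic twist by an integer `d` of odd valuation `n` at `P` of a curve with good reduction at `P`
(`1` if `-1` is a square modulo `P` and `-1` otherwise) -/
def LocalRoot (W : WeierstrassCurve K) (P : Ideal (𝓞 K)) (w : ℤ) : Prop :=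
  (∃ V : WeierstrassCurve (𝓞 K), ModelOf W V ∧ V.Δ ∉ P ∧ w = 1) ∨
  (∃ V : WeierstrassCurve (𝓞 K), ModelOf W V ∧ V.Δ ∈ P ∧ V.c₄ ∉ P ∧ w = -aP V P) ∨
  ((2 : 𝓞 K) ∉ P ∧ ∃ (V : WeierstrassCurve (𝓞 K)) (d : 𝓞 K) (n : ℕ), Odd n ∧ d ∈ P ^ n ∧
    d ∉ P ^ (n + 1) ∧ (∃ C : WeierstrassCurve.VariableChange K, C • W = twist V d) ∧ V.Δ ∉ P ∧
    w = if IsSquare (-1 : 𝓞 K ⧸ P) then 1 else -1)

/-- `w` is the root number `w(W/K)`: the product over all the places of the local root numbers, which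
are `-1` at the infinite places, `f P` at the primes `P`, and `1` outside the finite set `S` -/
def RootNumber (W : WeierstrassCurve K) (w : ℤ) : Prop :=
  ∃ f : Ideal (𝓞 K) → ℤ, (∀ P : Ideal (𝓞 K), P.IsPrime → P ≠ ⊥ → LocalRoot W P (f P)) ∧
    ∃ S : Finset (Ideal (𝓞 K)), (∀ P ∈ S, P.IsPrime ∧ P ≠ ⊥) ∧
      (∀ P : Ideal (𝓞 K), P.IsPrime → P ≠ ⊥ → P ∉ S → f P = 1) ∧
      w = (-1) ^ Nat.card (InfinitePlace K) * ∏ P ∈ S, f P

end fields

/-- `K = ℚ(√d_1, ..., √d_m)` -/
def IsField {m : ℕ} (d : Fin m → ℕ) (K : Type) [Field K] [NumberField K] : Prop :=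
  ∃ x : Fin m → K, (∀ i, x i ^ 2 = (d i : K)) ∧ IntermediateField.adjoin ℚ (Set.range x) = ⊤

/-- The tuples `(q_1 q'_1, ..., q_m q'_m)`, where the `q_i` and `q'_i` are `2 m` distinct primes, all
larger than `N`. -/
def Tuple {m : ℕ} (N : ℕ) (d : Fin m → ℕ) : Prop :=
  ∃ q q' : Fin m → ℕ, (∀ i, d i = q i * q' i) ∧ (∀ i, (q i).Prime ∧ N < q i) ∧
    (∀ i, (q' i).Prime ∧ N < q' i) ∧ Function.Injective q ∧ Function.Injective q' ∧
    ∀ i j, q i ≠ q' j

/-- `Gal(L/ℚ)` has a normal subgroup of odd order and of index a power of two (a normal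
2-complement); examples are all the nilpotent groups, in particular the 2-groups, and all the groups
with cyclic Sylow 2-subgroups -/
def TwoComplement (L : Type) [Field L] [NumberField L] : Prop :=
  ∃ (N : Subgroup (L ≃ₐ[ℚ] L)) (n : ℕ), N.Normal ∧ Odd (Nat.card N) ∧ N.index = 2 ^ n

/-- all the quadratic fields in `L` embed in `M` -/
def QuadraticFieldsIn (M L : Type) [Field M] [Field L] [NumberField L] : Prop :=
  ∀ F : IntermediateField ℚ L, Module.finrank ℚ F = 2 → Nonempty (F →+* M)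

/-- `L` contains two different quadratic subfields of `ℚ(√d_1, ..., √d_m)`: for two different nonempty
sets `S`, `T` of indices the product of the `d_i` over `S` and that over `T` are squares in `L` (for
the tuples in `Tuple` these are the square roots of two non-squares in different quadratic fields) -/
def TwoQuadraticFields {m : ℕ} (d : Fin m → ℕ) (L : Type) [Field L] : Prop :=
  ∃ S T : Finset (Fin m), S.Nonempty ∧ T.Nonempty ∧ S ≠ T ∧
    IsSquare ((∏ i ∈ S, d i : ℕ) : L) ∧ IsSquare ((∏ i ∈ T, d i : ℕ) : L)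

/-- the quadratic twist of `c` (the curve `y² = x³ + A x + B`) by the product `D` of the `d_i` over `S`
(the curve `y² = x³ + D² A x + D³ B`) -/
def twistBy {m : ℕ} (d : Fin m → ℕ) (S : Finset (Fin m)) (c : ℤ × ℤ) : ℤ × ℤ :=
  ((∏ i ∈ S, (d i : ℤ)) ^ 2 * c.1, (∏ i ∈ S, (d i : ℤ)) ^ 3 * c.2)

/-- The curves `E` such that for the field `M = ℚ(√d_1, ..., √d_m)` and each of the `2 ^ m` quadratic
twists `E'` of `E` by the product of some of the `d_i` the rank of `E'(M)` is zero and, for every number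
field `L` which is Galois over `ℚ` and contains two different quadratic subfields of `M`, the root
number `w(E'/L)` is `1` and, if `Gal(L/ℚ)` has a normal 2-complement and all the quadratic fields in
`L` embed in `M`, the rank of `E'(L)` is even. -/
def ParityGalois {m : ℕ} (d : Fin m → ℕ) : Set (ℤ × ℤ) :=
  {c | ∀ (M L : Type) [Field M] [NumberField M] [Field L] [NumberField L] [IsGalois ℚ L],
    IsField d M → ∀ S : Finset (Fin m), rankK M (twistBy d S c) = 0 ∧ (TwoQuadraticFields d L →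
      RootNumber (EK L (twistBy d S c).1 (twistBy d S c).2) 1 ∧
      (TwoComplement L → QuadraticFieldsIn M L → Even (rankK L (twistBy d S c))))}

lemma twoQ_of {m : ℕ} {d : Fin m → ℕ} {L : Type} [Field L] (h : TwoQuadraticFields d L) :
    Pool.Agent.X293.GY.TwoQ (fun j => (d j : ℤ)) L := by
  obtain ⟨S, T, hS, hT, hST, ⟨y, hy⟩, z, hz⟩ := h
  refine ⟨S, T, hS, hT, hST, ⟨y, ?_⟩, z, ?_⟩
  · rw [sq, ← hy]
    push_cast
    rfl
  · rw [sq, ← hz]
    push_cast
    rfl

lemma gen_of {m : ℕ} {d : Fin m → ℕ} {K : Type} [Field K] [NumberField K] (h : IsField d K) :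
    Pool.Agent.TH841.NF.Gen K (fun j => (d j : ℤ)) := by
  obtain ⟨x, hx, hg⟩ := h
  exact ⟨x, fun i => by rw [hx i, Int.cast_natCast], hg⟩

lemma good_of {m : ℕ} {d : Fin m → ℕ} {c : ℤ × ℤ}
    (hD : 4 * c.1 ^ 3 + 27 * c.2 ^ 2 ≠ 0)
    (hT : ∃ f : ZMod 2 × ZMod 2 →+ (E c.1 c.2).toAffine.Point, Function.Injective f)
    (h : Pool.Agent.X293.GZ.QG d c) : c ∈ ParityGalois d := by
  intro M L _ _ _ _ _ hM S
  have hT' := Pool.Agent.W307.RT.tors_iff.2 hT
  obtain ⟨h1, h2⟩ := h hD hT' M L (gen_of hM) S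
  refine ⟨h1, fun hL => ?_⟩
  obtain ⟨h3, h4⟩ := h2 (twoQ_of hL)
  exact ⟨h3, fun ⟨N, n, hN1, hN2, hN3⟩ hq => h4 N hN1 hN2 n hN3 hq⟩

lemma tup8 {m N : ℕ} {d : Fin m → ℕ} (h : Pool.Agent.Y667.QK.R.E.Tup8 m N d) : Tuple N d := by
  obtain ⟨q, q', h1, h2, h3, h4⟩ := h
  exact ⟨q, q', h1, fun i => ⟨(h2 i).1, (h2 i).2.1⟩, fun i => ⟨(h3 i).1, (h3 i).2.1⟩, h4⟩

lemma deg_of {m N : ℕ} {d : Fin m → ℕ} (hd : Tuple N d) (K : Type) [Field K] [NumberField K]
    (hK : IsField d K) : Module.finrank ℚ K = 2 ^ m := by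
  obtain ⟨q, q', h1, h2, h3, h4, h5, h6⟩ := hd
  refine Pool.Agent.Y388.QK.DEG m q q' (fun j => (h2 j).1) (fun j => (h3 j).1) h4 h5 h6 K ?_
  have := gen_of hK
  have e : (fun j => ((q j * q' j : ℕ) : ℤ)) = fun j => (d j : ℤ) := by
    funext j
    rw [h1 j]
  rw [e]
  exact this

/-- one of finitely many -/
lemma pack {ι : Type} (L : Finset ι) (p : ι → ℕ → ℝ) (δ : ℝ)
    (h : ∀ᶠ Z : ℕ in atTop, ∃ d ∈ L, δ ≤ p d Z) : ∃ d ∈ L, ∃ᶠ Z : ℕ in atTop, δ ≤ p d Z := by
  by_contra hcon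
  push Not at hcon
  have h1 : ∀ᶠ Z : ℕ in atTop, ∀ d ∈ L, ¬ δ ≤ p d Z := by
    rw [Filter.eventually_all_finset]
    intro d hd
    exact (hcon d hd).mono fun Z hZ => not_le.2 hZ
  obtain ⟨Z, hZ1, hZ2⟩ := (h.and h1).exists
  obtain ⟨d, hd, hle⟩ := hZ1
  exact hZ2 d hd hle

/-- **Theorem.** For each of the three orderings (naive height, minimal discriminant, conductor) of
the elliptic curves over `ℚ` with full rational 2-torsion there are finitely many curves of size at
most `Z`, their number tends to infinity with `Z`, and for all `m`, `N` there are a finite list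
`T` of tuples of products of two primes larger than `N`, the `2 m` primes distinct, so that the fields
`M = ℚ(√d_1, ..., √d_m)` have degree `2 ^ m`, and `δ > 0` such that for all large `Z` for some `d` in
`T` at least a proportion `δ` of the curves of size at most `Z` belongs to `ParityGalois d`: for all
the `2 ^ m` twists `E'` of `E` by products of the `d_i`, `rk E'(M) = 0`, `w(E'/L) = 1` for every Galois
field `L` containing two different quadratic subfields of `M`, and `rk E'(L)` is even if in addition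
`Gal(L/ℚ)` has a normal 2-complement and the quadratic fields in `L` embed in `M`; and one `d` in `T`
has this property for arbitrarily large `Z`. -/
theorem result : ∀ I : ℤ × ℤ → ℕ → Prop, IsOrdering I →
    (∀ Z : ℕ, (Fam I Z).Finite) ∧ Tendsto (fun Z : ℕ => (Fam I Z).ncard) atTop atTop ∧
    ∀ m N : ℕ, ∃ T : Finset (Fin m → ℕ), (∀ d ∈ T, Tuple N d ∧
        ∀ (M : Type) [Field M] [NumberField M], IsField d M → Module.finrank ℚ M = 2 ^ m) ∧
      ∃ δ : ℝ, 0 < δ ∧ (∀ᶠ Z : ℕ in atTop, ∃ d ∈ T, δ ≤ proportion I (ParityGalois d) Z) ∧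
        ∃ d ∈ T, ∃ᶠ Z : ℕ in atTop, δ ≤ proportion I (ParityGalois d) Z := by
  classical
  intro I hI
  rcases hI with rfl | rfl | ⟨f, hf, rfl⟩
  · refine ⟨fun Z => ?_, tendstoH, fun m N => ?_⟩
    · rw [FamH_eq]
      exact finite_toSet _
    · obtain ⟨L, hL, δ, hδ, H0, h⟩ := Pool.Agent.X293.GZ.mainH m N
      have key : ∀ᶠ Z : ℕ in atTop, ∃ d ∈ L, δ ≤ proportion HeightLe (ParityGalois d) Z := by
        filter_upwards [eventually_ge_atTop H0, tendstoH.eventually_ge_atTop 1] with H hH hH1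
        obtain ⟨d, hd, hle⟩ := h H hH
        refine ⟨d, hd, ?_⟩
        unfold proportion
        rw [le_div_iff₀ (by exact_mod_cast hH1)]
        have e1 : (Fam HeightLe H).ncard = (Pool.Agent.W307.RT.Cv 2 H).card := by
          rw [FamH_eq, Set.ncard_coe_finset]
        rw [e1]
        refine hle.trans (Nat.cast_le.2 ?_)
        rw [← Set.ncard_coe_finset]
        refine Set.ncard_le_ncard (fun k hk => ?_) (Set.Finite.inter_of_left (by
          rw [FamH_eq]
          exact finite_toSet _) _)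
        rw [mem_coe, mem_filter] at hk
        have hkF : k ∈ Fam HeightLe H := by
          rw [FamH_eq, mem_coe]
          exact hk.1
        exact ⟨hkF, good_of hkF.1 hkF.2.2.1 (Pool.Agent.X293.GZ.qg_of_tw (hL d hd) hk.2)⟩
      exact ⟨L, fun d hd => ⟨tup8 (hL d hd), fun M _ _ hM => deg_of (tup8 (hL d hd)) M hM⟩, δ,
        hδ, key, pack L (fun d Z => proportion HeightLe (ParityGalois d) Z) δ key⟩
  · refine ⟨fun Z => ?_, tendstoD, fun m N => ?_⟩
    · rw [FamD_eq]
      exact finite_toSet _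
    · obtain ⟨L, hL, δ, hδ, H0, h⟩ := Pool.Agent.X293.GZ.mainD m N
      have key : ∀ᶠ Z : ℕ in atTop, ∃ d ∈ L, δ ≤ proportion DiscLe (ParityGalois d) Z := by
        filter_upwards [eventually_ge_atTop H0, tendstoD.eventually_ge_atTop 1] with H hH hH1
        obtain ⟨d, hd, hle⟩ := h H hH
        refine ⟨d, hd, ?_⟩
        unfold proportion
        rw [le_div_iff₀ (by exact_mod_cast hH1)]
        have e1 : (Fam DiscLe H).ncard = (Pool.Agent.TH344.DS.Dv H).card := by
          rw [FamD_eq, Set.ncard_coe_finset]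
        rw [e1]
        refine hle.trans (Nat.cast_le.2 ?_)
        rw [← Set.ncard_coe_finset]
        refine Set.ncard_le_ncard (fun k hk => ?_) (Set.Finite.inter_of_left (by
          rw [FamD_eq]
          exact finite_toSet _) _)
        rw [mem_coe, mem_filter] at hk
        have hkF : k ∈ Fam DiscLe H := by
          rw [FamD_eq, mem_coe]
          exact hk.1
        exact ⟨hkF, good_of hkF.1 hkF.2.2.1 (Pool.Agent.X293.GZ.qg_of_tw (hL d hd) hk.2)⟩
      exact ⟨L, fun d hd => ⟨tup8 (hL d hd), fun M _ _ hM => deg_of (tup8 (hL d hd)) M hM⟩, δ,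
        hδ, key, pack L (fun d Z => proportion DiscLe (ParityGalois d) Z) δ key⟩
  · refine ⟨fun Z => ?_, ?_, fun m N => ?_⟩
    · rw [FamC_eq]
      exact Pool.Agent.Y679.Cr.Gm_fin good (bdd hf) Z
    · simp only [FamC_eq]
      exact Pool.Agent.Y679.Cr.Gm_tendsto good (bdd hf)
    · obtain ⟨L, hL, δ0, hδ0, H0, h0⟩ := Pool.Agent.X293.GZ.mainH m N
      obtain ⟨δ, hδ, h⟩ := Pool.Agent.X293.CO.cond_list L
        (fun d => Pool.Agent.X293.GZ.TwZ (fun j => (d j : ℤ))) good ⟨δ0, hδ0, H0, h0⟩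
      have key : ∀ᶠ Z : ℕ in atTop, ∃ d ∈ L, δ ≤ proportion (CondLe f) (ParityGalois d) Z := by
        filter_upwards [h f (bdd hf)] with Z hZ
        obtain ⟨d, hd, hle⟩ := hZ
        refine ⟨d, hd, hle.trans ?_⟩
        unfold proportion
        rw [FamC_eq]
        refine div_le_div_of_nonneg_right (Nat.cast_le.2 (Set.ncard_le_ncard ?_
          ((Pool.Agent.Y679.Cr.Gm_fin good (bdd hf) Z).subset Set.inter_subset_left)))
          (Nat.cast_nonneg _)
        rintro k ⟨h1, h2⟩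
        exact ⟨h1, good_of h1.1.1 h1.1.2.2 (Pool.Agent.X293.GZ.qg_of_tw (hL d hd) h2)⟩
      exact ⟨L, fun d hd => ⟨tup8 (hL d hd), fun M _ _ hM => deg_of (tup8 (hL d hd)) M hM⟩, δ,
        hδ, key, pack L (fun d Z => proportion (CondLe f) (ParityGalois d) Z) δ key⟩

end Pool.Agent.Results.MP_02f36d_nt.GaloisFieldsOverMultiquadratic
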