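import Mathlib
import Pool.Agent.X298.PA.NFMain

/-!
# The root number of an elliptic curve over a number field from point counts: the phases of rotated sums

Let `K` be a number field and `E / K` an elliptic curve for which the conjecture of Hasse and Weil holds: the completed
`L`-function `Λ(s) = N^{s/2} ((2π)^{-s} Γ(s))^[K : ℚ] L(E / K, s)` is entire and `Λ(2 - s) = w Λ(s)` with the root number
`w = w(E / K)` (known for instance for `K = ℚ` and for real quadratic `K`). For real `γ > π / 2` and `T > 0` consider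
the absolutely convergent real series over the finite places of `K`

  `s_γ(T) = ∑_v ∑_{k ≥ 1} - (α_v^k + β_v^k) sin(γ k log q_v / T) / (k q_v^k Γ(1 + k log q_v / T))`,

where `(1 - α_v X) (1 - β_v X)` is the local polynomial of `E` at `v`, so that for good `v`
`- (α_v^k + β_v^k) = #E(𝔽_q) - q - 1`, `q = q_v^k`. It is shown:

* the limit `ℓ(γ) = lim_{T → ∞} s_γ(T)` exists for all `γ > π / 2` (no factor `log T`, no normalisation);
* `ℓ(γ) → (π / 2) Z` for `γ → ∞`, where `Z` is **the number of the real zeros of `Λ`** (with multiplicities); more precisely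
  `|ℓ(γ) - (π / 2) Z| ≤ 10 (e^e + 1) ord_{s=1} Λ / γ` for `γ ≥ 2π`;
* `w = (-1)^Z`: so **the parity conjecture for `E / K` holds if and only if
  `(2 / π) lim_{γ → ∞} lim_{T → ∞} s_γ(T) ≡ rank E(K)  (mod 2)`**, a statement about the numbers of points of `E` modulo the
  places of `K`.

There is no hypothesis on the zeros.

Proof: the rotated law of the starting library (`Pool.Agent.W187.UR`) gives
`ℓ(γ) = - m Im Λ_γ + π e`, `m` the order at the centre, `e` the number of the real zeros `> 1`, and a contour integral for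
`Λ_γ` gives `Im Λ_γ → - π / 2`. By the functional equation `Z = m + 2 e` and `w = (-1)^m`.
-/

set_option autoImplicit false

open Complex Filter Topology Set
open IsDedekindDomain NumberField

namespace Pool.Agent.Results.MP_02f36d_nt.RealZerosFromPointCounts

open Pool.Agent.X298.PA Pool.Agent.X298.PA.NF

/-- **The root number and the number of the real zeros from point counts.** -/
theorem result {K : Type} [Field K] [NumberField K] (E : WeierstrassCurve K) [E.IsElliptic] (w : ℤ) (Λ : ℂ → ℂ)
    (h : HasseWeil E w Λ) :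
    (∀ γ T : ℝ, 0 < T → Summable fun x => |sTerm E γ T x|) ∧
    {x : ℝ | Λ x = 0}.Finite ∧ (-1 : ℤ) ^ realZeros Λ = w ∧
    ∃ ℓ : ℝ → ℝ, (∀ γ : ℝ, Real.pi / 2 < γ → Tendsto (fun T : ℝ => sSum E γ T) atTop (𝓝 (ℓ γ))) ∧
      (∀ γ : ℝ, 2 * Real.pi ≤ γ → |ℓ γ - Real.pi / 2 * realZeros Λ| ≤
        10 * (Real.exp (Real.exp 1) + 1) * analyticOrderNatAt Λ 1 / γ) ∧
      Tendsto ℓ atTop (𝓝 (Real.pi / 2 * realZeros Λ)) ∧
      ((-1 : ℤ) ^ rank E = w ↔ ∃ n : ℤ, Tendsto ℓ atTop (𝓝 (Real.pi / 2 * (rank E + 2 * n)))) := by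
  obtain ⟨h1, h2, ℓ, h3, h4, h5⟩ := main h
  refine ⟨fun γ T hT => sTerm_summable E γ hT, h1, h2, ℓ, h3, h4, h5, ?_⟩
  generalize rank E = r
  have hπ := Real.pi_pos
  rw [← h2]
  constructor
  · intro h6
    have h7 : Even ((realZeros Λ : ℤ) - r) := by
      rw [Int.even_sub, Int.even_coe_nat, Int.even_coe_nat]
      rcases Nat.even_or_odd r with hr | hr
      · rw [hr.neg_one_pow] at h6
        have : Even (realZeros Λ) := by
          by_contra hn
          rw [Nat.not_even_iff_odd] at hn
          rw [hn.neg_one_pow] at h6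
          norm_num at h6
        exact ⟨fun _ => hr, fun _ => this⟩
      · rw [hr.neg_one_pow] at h6
        have : Odd (realZeros Λ) := by
          by_contra hn
          rw [Nat.not_odd_iff_even] at hn
          rw [hn.neg_one_pow] at h6
          norm_num at h6
        exact ⟨fun h => absurd h (Nat.not_even_iff_odd.2 this), fun h => absurd h (Nat.not_even_iff_odd.2 hr)⟩
    obtain ⟨n, hn⟩ := h7
    refine ⟨n, ?_⟩
    have e1 : (realZeros Λ : ℝ) = (r : ℝ) + 2 * n := by
      have : (realZeros Λ : ℤ) = r + 2 * n := by omega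
      exact_mod_cast this
    rw [← e1]
    exact h5
  · rintro ⟨n, hn⟩
    have h6 := tendsto_nhds_unique h5 hn
    have h7 : (realZeros Λ : ℝ) = (r : ℝ) + 2 * n := by
      have h8 : Real.pi / 2 ≠ 0 := by positivity
      exact mul_left_cancel₀ h8 h6
    have h8 : (realZeros Λ : ℤ) = r + 2 * n := by exact_mod_cast h7
    have h9 : ((-1 : ℤ) ^ realZeros Λ) = (-1) ^ r := by
      rw [neg_one_pow_eq_pow_mod_two, neg_one_pow_eq_pow_mod_two (n := r)]
      congr 1
      omega
    exact h9.symm

end Pool.Agent.Results.MP_02f36d_nt.RealZerosFromPointCounts
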